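import Mathlib
import Pool.Agent.N906.SZ.Stm
import Pool.Agent.N906.FH.Stm

/-!
# Project SS (helper906): MP_d8bd92_nt (Szpiro for semistable curves) and MP_5349b0_nt (modified Szpiro)

Targets, `1 < σ < 6/5`, `lam = 1 - 1/σ` (`0 < lam < 1/6`), `C > 0`.
(S) The number of the semistable elliptic curves over `ℚ` with `|c₄| ≤ X²`, `|c₆| ≤ X³` and `|Δ| ≥ C N ^ σ` is
`X ^ (6/σ - 1) exp ((√(48 (1 - 1/σ)) + o(1)) √(log X / log log X))`.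
(M) The number of all elliptic curves (minimal models `y² = x³ - a x - b` with `|a| ≤ X²`, `|b| ≤ X³`) with
`max (4|a|³, 27b²) ≥ C f ^ σ` (`f` between `N₆` and a constant times `N₆`) is
`X ^ (6/σ - 1) exp ((√(96 (1 - 1/σ)) + o(1)) √(log X / log log X))`.

The upper bounds are projects SZ and FH (proved: `Pool.Agent.N906.FH.up_st : S_UPg Cs 1` in `Pool/Agent/N906/FH/AllSt.lean`,
`Pool.Agent.N906.FH.up_un : S_UPg Cn 2` in `FH/AllUn.lean`, `Pool.Agent.N906.SZ.lo_all : S_LO` in `SZ/All.lean`).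
-/

set_option autoImplicit false

namespace Pool.Agent.N906.SS

open Finset Filter Topology Pool.Agent.N906.SZ Pool.Agent.N906.FH

/-- the curve `y² + x y = x³ + s x + t`: `c₄ = 1 - 48 s`, `c₆ = -1 + 72 s - 864 t` -/
def Wm (x : ℤ × ℤ) : WeierstrassCurve ℤ := ⟨1, 0, 0, x.1, x.2⟩

/-- the product of the primes dividing the discriminant -/
def rdD (W : WeierstrassCurve ℤ) : ℕ := ∏ p ∈ W.Δ.natAbs.primeFactors, p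

/-- LOWS (many semistable curves with given `q`). As `S_LOW3` of project FH (`Pool/Agent/N492/FH_LOW3.lean`), for the family `Wm`.
`1728 Δ = c₄³ - c₆²`, `c₄ ≡ 1` modulo 48. Fix a large absolute constant `y₀`, let `Q` be the product of the primes `7 ≤ p < y₀`, and
take only `s = Q s'`, so that `c₄ = 1 - 48 s` is prime to `6 Q`; `C₀` is very large compared with `Q`. `m = 5^(j+1) q (rd q)` (its
primes are `5` and primes `> z ≥ C₀`, so it is prime to `6 Q`); `(c₄, c₆) ≡ (t², t³)` modulo `m` for a unit `t` (`φ(m)` different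
pairs of classes; conversely these are the pairs with `m ∣ Δ`, `c₄` prime to `m`), which is a condition on `(s', t')` modulo `m`;
the box `|c₄| ≤ X²`, `|c₆| ≤ X³` contains `{|s'| ≤ X²/(50 Q), |t' | ≤ X³/1000}` or so: at least `c φ(m) X⁵ / (Q m²)` pairs `(s', t')`, `c` absolute.
Remove (R1) `m p ∣ Δ` for some `p ∣ q`: at most `C φ(m) X⁵ / (Q m² p)`; (R2) for the primes `z < p ≤ P` not dividing `q`: `p ∤ c₄`, `p² ∣ Δ`: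
`C φ(m) X⁵ / (Q m² p²)`; (R3) for the primes `p ≥ y₀` not dividing `m`: `p ∣ c₄`, `p ∣ c₆`: `C φ(m) X⁵ / (Q m² p²)` if `m p Q ≤ X²`; if
`m p Q > X²` at most `C (X²/p)(X³/p)` for each `p ≤ X²` (`c₄ ≠ 0`), in total `C X³ m Q`, small compared with `X⁵ / (Q m)`
as `m C₀ ≤ X`; all these `C` are absolute; (R4) `Δ = 0`. For the primes in `(z, P]` dividing `c₄`: `p ∤ c₆`, so `p ∤ Δ`. The `c` of the
statement may depend on `Q`. -/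
def S_LOWS : Prop := ∃ c₁ c C₀ : ℝ, 0 < c₁ ∧ 0 < c ∧ 5 < C₀ ∧ ∀ (X z P : ℝ) (j q : ℕ),
  1 ≤ q → C₀ ≤ z → z ≤ P → (∀ p ∈ q.primeFactors, z < (p : ℝ) ∧ (p : ℝ) ≤ P) →
  ∑ p ∈ q.primeFactors, (1 : ℝ) / p ≤ c₁ → C₀ * ((5 : ℝ) ^ j * q * rd q) * P ^ 2 ≤ X →
  ∃ F : Finset (ℤ × ℤ),
    (∀ x ∈ F, (Wm x).Δ ≠ 0 ∧ IsCoprime (Wm x).c₄ (Wm x).Δ ∧ |((Wm x).c₄ : ℝ)| ≤ X ^ 2 ∧
      |((Wm x).c₆ : ℝ)| ≤ X ^ 3 ∧
      (∀ p ∈ (5 ^ j * q).primeFactors, (p : ℤ) ^ ((5 ^ j * q).factorization p + 1) ∣ (Wm x).Δ) ∧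
      ∀ p : ℕ, p.Prime → z < (p : ℝ) → (p : ℝ) ≤ P →
        (Wm x).Δ.natAbs.factorization p - 1 = q.factorization p) ∧
    c * X ^ 5 / ((5 : ℝ) ^ j * q * rd q) ≤ F.card

/-- LOS. From `S_WIN1` (proved: `Pool.Agent.N954.FH.win1`, see `FH/AllSt.lean`) and LOWS, as `Pool/Agent/N286/FH_LO3.lean`.
`T = A (2 X⁶)^lam` (`|Δ| ≤ 2 X⁶ / 1728`), `Z = log T`, `z = √Z`, `P = exp (ε' Z)`, `j` minimal with `5^j q ≥ T`. For the curves of LOWS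
`5^j q (rdD / small part)` divides `Δ`: for `p ∣ 5^j q` the exponent of `p` in `Δ` is at least `v_p(5^j q) + 1`, for the other primes
dividing `Δ` at least 1, so `|Δ| ≥ 5^j q rdD ≥ T rdD ≥ A rdD |Δ|^lam`. For different `q` the sets are disjoint (`q` is read off from `Δ`). -/
def S_LOS : Prop := ∀ lam A ε : ℝ, 0 < lam → lam < 1 / 6 → 1 ≤ A → 0 < ε → ε < 1 →
  ∃ X₀ : ℝ, 3 < X₀ ∧ ∀ X : ℝ, X₀ ≤ X → ∃ F : Finset (ℤ × ℤ),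
    (∀ x ∈ F, (Wm x).Δ ≠ 0 ∧ IsCoprime (Wm x).c₄ (Wm x).Δ ∧ |((Wm x).c₄ : ℝ)| ≤ X ^ 2 ∧
      |((Wm x).c₆ : ℝ)| ≤ X ^ 3 ∧
      A * (rdD (Wm x) : ℝ) * |((Wm x).Δ : ℝ)| ^ lam ≤ |((Wm x).Δ : ℝ)|) ∧
    Real.exp ((5 - 6 * lam) * Real.log X +
      (1 - ε) * √(48 * lam * Real.log X / Real.log (Real.log X))) ≤ F.card

/-- the invariants `(c₄, c₆)` of the integral models with `Δ ≠ 0` and `gcd(c₄, Δ) = 1` (the minimal models of the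
semistable curves) with `|c₄| ≤ X²`, `|c₆| ≤ X³` and `C N ^ σ ≤ |Δ|` -/
def SV (σ C X : ℝ) : Set (ℤ × ℤ) :=
  {q | ∃ W : WeierstrassCurve ℤ, W.Δ ≠ 0 ∧ IsCoprime W.c₄ W.Δ ∧ q = (W.c₄, W.c₆) ∧
    |(W.c₄ : ℝ)| ≤ X ^ 2 ∧ |(W.c₆ : ℝ)| ≤ X ^ 3 ∧ C * (rdD W : ℝ) ^ σ ≤ |(W.Δ : ℝ)|}

/-- FINS. Lower bound: LOS (the pair `(c₄, c₆)` determines `(s, t)`; `A` large gives `C rdD^σ ≤ |Δ|`). Upper bound: `S_UPg Cs 1`. For a
semistable `W` let `u ∈ {1, 3}` be maximal with `u⁴ ∣ 27 c₄`, `u⁶ ∣ 54 c₆` (a prime `p` for which `p⁴ ∣ 27 c₄ / u⁴`, `p⁶ ∣ 54 c₆ / u⁶`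
would divide `c₄` and `Δ`; for `p = 2`: `16 ∣ c₄`, `32 ∣ c₆` give `16 ∣ Δ`; `9 ∣ u` is impossible too), `(a, b) = (27 c₄ / u⁴, 54 c₆ / u⁶)`: `Mn a b`,
`Dd a b = 2^8 3^12 Δ / u^12`, `|a| ≤ (6X)²`, `|b| ≤ (6X)³`, for the primes `p ≥ 5`: `p ∣ Dd a b ↔ p ∣ Δ`, and then `p ∤ a`; so `Nc a b ≤ rdD W`.
`n = |Dd a b| / Nc a b` from GAIN satisfies `Cs n a b`, and `|D| = n Nc ≤ n (|Δ| / C)^(1/σ) ≤ K n Mx^(1 - lam)`. At most two `W`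
(pairs `(c₄, c₆)`) give the same `(a, b)`. Limits as in `Pool/Agent/N906/SZ/Lim.lean`, `FH/Fin.lean`. -/
def S_FINS : Prop := ∀ σ C : ℝ, 1 < σ → σ < 6 / 5 → 0 < C →
  (∀ X : ℝ, (SV σ C X).Finite) ∧
  Tendsto (fun X : ℝ => (Real.log ((SV σ C X).ncard : ℝ) - (6 / σ - 1) * Real.log X) /
    √(Real.log X / Real.log (Real.log X))) atTop (𝓝 √(48 * (1 - 1 / σ)))

/-- all minimal models in the box with large height compared with `f` -/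
def MV (f : ℤ → ℤ → ℝ) (σ C X : ℝ) : Set (ℤ × ℤ) :=
  {q | Mn q.1 q.2 ∧ |(q.1 : ℝ)| ≤ X ^ 2 ∧ |(q.2 : ℝ)| ≤ X ^ 3 ∧
    C * f q.1 q.2 ^ σ ≤ max (4 * |(q.1 : ℝ)| ^ 3) (27 * (q.2 : ℝ) ^ 2)}

/-- FINM. Upper bound: `S_UPg Cn 2` with `n = |D| / N₆` (GAIN), `max (4|a|³, 27b²) ≤ 5 Mx a b`, so
`N₆ ≤ f ≤ (5 Mx / C)^(1/σ)`, `|D| = n N₆ ≤ K n Mx^(1 - lam)`. Lower bound: `S_LO` with a large `A`, `|D| ≤ 2 max (4|a|³, 27b²)`. Limits as in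
`Pool/Agent/N906/SZ/Lim.lean`. -/
def S_FINM : Prop := ∀ (f : ℤ → ℤ → ℝ) (B σ C : ℝ), 1 ≤ B →
  (∀ a b, Mn a b → (Nc a b : ℝ) ≤ f a b ∧ f a b ≤ B * Nc a b) → 1 < σ → σ < 6 / 5 → 0 < C →
  (∀ X : ℝ, (MV f σ C X).Finite) ∧
  Tendsto (fun X : ℝ => (Real.log ((MV f σ C X).ncard : ℝ) - (6 / σ - 1) * Real.log X) /
    √(Real.log X / Real.log (Real.log X))) atTop (𝓝 √(96 * (1 - 1 / σ)))

end Pool.Agent.N906.SS
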