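import Pool.Agent.N906.SS.Stm
import Pool.Agent.N906.FH.AllSt
import Pool.Agent.N906.FH.AllUn
import Pool.Agent.N906.SZ.All
import Pool.Agent.N93.SS_LOWS
import Pool.Agent.N402.SS_LOS
import Pool.Agent.N265.SS_FINS
import Pool.Agent.N380.SS_FINM

/-!
# Project SS: all statements
-/

set_option autoImplicit false

namespace Pool.Agent.N906.SS

theorem los_all : S_LOS := Pool.Agent.N402.SS.los
  (Pool.Agent.N954.FH.win1 Pool.Agent.N906.NT.winn_all) Pool.Agent.N93.SS.lows

theorem fins_all : S_FINS := Pool.Agent.N265.SS.fins Pool.Agent.N906.FH.up_st los_all Pool.Agent.N157.SZ.gain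

theorem finm_all : S_FINM := Pool.Agent.N380.SS.finm Pool.Agent.N906.FH.up_un
  Pool.Agent.N906.SZ.lo_all Pool.Agent.N157.SZ.gain

end Pool.Agent.N906.SS
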